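import Pool.Agent.Helper39.Helly.Retract

/-!
Let `X` be a poset whose Helly number `h(X)` is finite. Then every finite `E ⊆ X` is contained in
a finite `F ⊆ X` with `h(F) = h(X)`; moreover `F` can be taken to be an order retract of `X`.
-/

universe u

namespace Pool.Agent.Results.MP_0878ad_co.FiniteHelly

/-- `S` is partitionable in the poset `X`: there is `x : X` such that at least two distinct points
`s ∈ S` satisfy `x ≤ s` and at least two distinct points `s ∈ S` satisfy `s ≤ x`. -/
def Partitionable {X : Type u} [PartialOrder X] (S : Set X) : Prop :=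
  ∃ x : X, (∃ s ∈ S, ∃ t ∈ S, s ≠ t ∧ x ≤ s ∧ x ≤ t) ∧
    (∃ s ∈ S, ∃ t ∈ S, s ≠ t ∧ s ≤ x ∧ t ≤ x)

/-- The Helly number `h(X)`, the supremum of the sizes of the nonpartitionable subsets of `X`. -/
noncomputable def helly (X : Type u) [PartialOrder X] : ℕ∞ :=
  ⨆ S : {S : Set X // ¬ Partitionable S}, (S : Set X).encard

theorem encard_le_helly {X : Type u} [PartialOrder X] {S : Set X} (hS : ¬ Partitionable S) :
    S.encard ≤ helly X :=
  le_iSup (fun S : {S : Set X // ¬ Partitionable S} => (S : Set X).encard) ⟨S, hS⟩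

theorem not_partitionable_of_antichain {X : Type u} [PartialOrder X] {S : Set X}
    (hS : IsAntichain (· ≤ ·) S) : ¬ Partitionable S := by
  rintro ⟨x, ⟨s, hs, t, ht, hst, hxs, hxt⟩, ⟨a, ha, b, hb, hab, hax, hbx⟩⟩
  have h1 : a = s := hS.eq ha hs (hax.trans hxs)
  have h2 : a = t := hS.eq ha ht (hax.trans hxt)
  exact hst (h1.symm.trans h2)

/-- If `X` is a poset with finite Helly number and `E ⊆ X` is finite, then there is a finite
`F ⊆ X` with `E ⊆ F` and `h(F) = h(X)`; moreover `F` is an order retract of `X`. -/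
theorem result {X : Type u} [PartialOrder X] (hX : helly X < ⊤) (E : Set X) (hE : E.Finite) :
    ∃ F : Set X, F.Finite ∧ E ⊆ F ∧ helly F = helly X ∧
      ∃ r : X →o F, ∀ x : F, r (x : X) = x := by
  classical
  have hne : Nonempty {S : Set X // ¬ Partitionable S} :=
    ⟨∅, not_partitionable_of_antichain (by simp)⟩
  obtain ⟨⟨S, hS⟩, hSe⟩ := ENat.exists_eq_iSup_of_lt_top
    (f := fun S : {S : Set X // ¬ Partitionable S} => (S : Set X).encard) hX
  have hSe' : S.encard = helly X := hSe
  have hSfin : S.Finite := Set.encard_lt_top_iff.1 (by rw [hSe']; exact hX)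
  obtain ⟨k, hk⟩ := ENat.ne_top_iff_exists.1 hX.ne
  have hw : Pool.Agent.Helper39.Helly.WidthLE X k := by
    intro s hs
    have h1 := encard_le_helly (not_partitionable_of_antichain hs)
    rw [← hk, Set.encard_coe_eq_coe_finsetCard] at h1
    exact_mod_cast h1
  obtain ⟨F, r, hF, hEF, hrm, hrF, hrid⟩ :=
    Pool.Agent.Helper39.Helly.exists_finite_retract hw (E ∪ S) (hE.union hSfin)
  refine ⟨F, hF, fun e he => hEF (Or.inl he), ?_, ⟨fun x => ⟨r x, hrF x⟩, fun x y hxy => hrm hxy⟩,
    fun x => Subtype.ext (hrid x x.2)⟩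
  apply le_antisymm
  · refine iSup_le ?_
    rintro ⟨A, hA⟩
    have h1 : ¬ Partitionable ((Subtype.val : F → X) '' A) := by
      rintro ⟨x, ⟨s, hs, t, ht, hst, hxs, hxt⟩, ⟨a, ha, b, hb, hab, hax, hbx⟩⟩
      obtain ⟨s, hs, rfl⟩ := hs
      obtain ⟨t, ht, rfl⟩ := ht
      obtain ⟨a, ha, rfl⟩ := ha
      obtain ⟨b, hb, rfl⟩ := hb
      apply hA
      refine ⟨⟨r x, hrF x⟩, ⟨s, hs, t, ht, fun h => hst (by rw [h]), ?_, ?_⟩,
        ⟨a, ha, b, hb, fun h => hab (by rw [h]), ?_, ?_⟩⟩
      · have := hrm hxs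
        rwa [hrid s s.2] at this
      · have := hrm hxt
        rwa [hrid t t.2] at this
      · have := hrm hax
        rwa [hrid a a.2] at this
      · have := hrm hbx
        rwa [hrid b b.2] at this
    have h2 := encard_le_helly h1
    rwa [Subtype.val_injective.encard_image] at h2
  · rw [← hSe']
    have hSF : S ⊆ F := fun s hs => hEF (Or.inr hs)
    have h1 : ¬ Partitionable ((Subtype.val : F → X) ⁻¹' S) := by
      rintro ⟨x, ⟨s, hs, t, ht, hst, hxs, hxt⟩, ⟨a, ha, b, hb, hab, hax, hbx⟩⟩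
      exact hS ⟨x, ⟨s, hs, t, ht, fun h => hst (Subtype.ext h), hxs, hxt⟩,
        ⟨a, ha, b, hb, fun h => hab (Subtype.ext h), hax, hbx⟩⟩
    have h2 := encard_le_helly h1
    have h3 : ((Subtype.val : F → X) '' ((Subtype.val : F → X) ⁻¹' S)) = S := by
      rw [Subtype.image_preimage_coe]
      exact Set.inter_eq_right.2 hSF
    rw [← Subtype.val_injective.encard_image ((Subtype.val : F → X) ⁻¹' S), h3] at h2
    exact h2

end Pool.Agent.Results.MP_0878ad_co.FiniteHelly
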